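import Pool.Agent.Helper14.TL7.StD

/-!
# Project TL (levels `4·7^n`), module Stp: the operators on symbols and their rows
-/

set_option autoImplicit false

namespace Pool.Agent.Helper38.TL7

open Pool.Agent.Helper14.TL7
open Pool.Agent.Helper84.S7
open Pool.Agent.Helper4.S7 (Tm mulL sclL Gd mmL idL smL adL)
open Pool.Agent.Helper76.S7 (rY7 edge7 S7PlA)
open Pool.Agent.Helper76.TL7 (edgeE7)
open Pool.Agent.Helper14.CV (Homog EqC act Tl)
open Pool.Agent.Helper4.TL (eps SymE)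

/-- All entries of a matrix of lists are good. -/
private def GG (A : Fin 2 → Fin 2 → List Tm) : Prop := ∀ i f, ∀ t ∈ A i f, Gd t

/-- The operator `Φ` preserves symbols and has the rows `A`. -/
private def Rw (r s : ℕ) (Φ : (ℤ → ℤ → ZMod 7) → (ℤ → ℤ → ZMod 7)) (A : Fin 2 → Fin 2 → List Tm) : Prop :=
  GG A ∧ ∀ G, SymE 7 r (s + 1) G → SymE 7 r (s + 1) (Φ G) ∧
    ∀ i, (pfE (Φ G) i : Fn7 (7 ^ r) (7 ^ s)) = ∑ f : Fin 2, opL (A i f) (pfE G f)

private lemma gg_id (c : ℤ) : GG (idL c) := by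
  intro i f t ht
  unfold idL at ht
  split_ifs at ht
  · rw [List.mem_singleton] at ht
    subst ht
    exact ⟨by norm_num, by norm_num⟩
  · simp at ht

private lemma gg_ad {A B : Fin 2 → Fin 2 → List Tm} (hA : GG A) (hB : GG B) : GG (adL A B) := by
  intro i f t ht
  unfold adL at ht
  rcases List.mem_append.1 ht with h | h
  · exact hA i f t h
  · exact hB i f t h

private lemma gg_sm (n : ℤ) {A : Fin 2 → Fin 2 → List Tm} (hA : GG A) : GG (smL n A) := by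
  intro i f t ht
  unfold smL sclL at ht
  obtain ⟨u, hu, rfl⟩ := List.mem_map.1 ht
  exact hA i f u hu

private lemma gg_mm (hp : S7Opm) {A B : Fin 2 → Fin 2 → List Tm} (hA : GG A) (hB : GG B) : GG (mmL A B) := by
  intro i f t ht
  unfold mmL at ht
  rcases List.mem_append.1 ht with h | h
  · exact ((hp 0 0).1 _ _ (hA i 0) (hB 0 f)).1 t h
  · exact ((hp 0 0).1 _ _ (hA i 1) (hB 1 f)).1 t h

section

variable {r s : ℕ}

private lemma pf_add (G H : ℤ → ℤ → ZMod 7) (i : Fin 2) :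
    (pfE (G + H) i : Fn7 (7 ^ r) (7 ^ s)) = pfE G i + pfE H i := by
  funext x y
  simp only [pfE, edgeE7, edge7, Pi.add_apply]
  rw [← smul_add]
  congr 1
  abel

private lemma pf_smul (n : ℤ) (G : ℤ → ℤ → ZMod 7) (i : Fin 2) :
    (pfE (n • G) i : Fn7 (7 ^ r) (7 ^ s)) = ((n : ℤ) : ZMod 7) • pfE G i := by
  funext x y
  simp only [pfE, edgeE7, edge7, Pi.smul_apply, smul_eq_mul, zsmul_eq_mul]
  ring

private lemma rw_ad (hp : S7Opm) {Φ Ψ : (ℤ → ℤ → ZMod 7) → (ℤ → ℤ → ZMod 7)}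
    {A B : Fin 2 → Fin 2 → List Tm} (hA : Rw r s Φ A) (hB : Rw r s Ψ B) :
    Rw r s (fun G => Φ G + Ψ G) (adL A B) := by
  refine ⟨gg_ad hA.1 hB.1, fun G hG => ?_⟩
  obtain ⟨a1, a2⟩ := hA.2 G hG
  obtain ⟨b1, b2⟩ := hB.2 G hG
  refine ⟨SymE.add a1 b1, fun i => ?_⟩
  rw [pf_add, a2, b2]
  simp only [adL, (hp r s).2.2.1, LinearMap.add_apply, Finset.sum_add_distrib]

private lemma rw_sm (hp : S7Opm) (n : ℤ) {Φ : (ℤ → ℤ → ZMod 7) → (ℤ → ℤ → ZMod 7)}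
    {A : Fin 2 → Fin 2 → List Tm} (hA : Rw r s Φ A) :
    Rw r s (fun G => n • Φ G) (smL n A) := by
  refine ⟨gg_sm n hA.1, fun G hG => ?_⟩
  obtain ⟨a1, a2⟩ := hA.2 G hG
  refine ⟨SymE.smul n a1, fun i => ?_⟩
  rw [pf_smul, a2]
  simp only [smL, (hp r s).2.1, LinearMap.smul_apply, Finset.smul_sum]

private lemma rw_mm (hp : S7Opm) {Φ Ψ : (ℤ → ℤ → ZMod 7) → (ℤ → ℤ → ZMod 7)}
    {A B : Fin 2 → Fin 2 → List Tm} (hA : Rw r s Φ A) (hB : Rw r s Ψ B) :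
    Rw r s (fun G => Φ (Ψ G)) (mmL A B) := by
  refine ⟨gg_mm hp hA.1 hB.1, fun G hG => ?_⟩
  obtain ⟨b1, b2⟩ := hB.2 G hG
  obtain ⟨a1, a2⟩ := hA.2 _ b1
  refine ⟨a1, fun i => ?_⟩
  have hmul : ∀ g f : Fin 2, (opL (mulL (A i g) (B g f)) : Module.End (ZMod 7) (Fn7 (7 ^ r) (7 ^ s))) =
      opL (A i g) * opL (B g f) := fun g f => ((hp r s).1 _ _ (hA.1 i g) (hB.1 g f)).2
  rw [a2, Fin.sum_univ_two, b2, b2]
  simp only [Fin.sum_univ_two, mmL, (hp r s).2.2.1, hmul, LinearMap.add_apply, Module.End.mul_apply,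
    map_add]
  abel

private lemma op_one (F : Fn7 (7 ^ r) (7 ^ s)) : op7 1 0 0 1 F = F := by
  funext x y
  show F _ _ = F x y
  simp

private lemma rw_id (c : ℤ) : Rw r s (fun G => c • G) (idL c) := by
  refine ⟨gg_id c, fun G hG => ⟨SymE.smul c hG, fun i => ?_⟩⟩
  rw [pf_smul]
  have h1 : ∀ f, (opL (idL c f f) : Module.End (ZMod 7) (Fn7 (7 ^ r) (7 ^ s))) (pfE G f) =
      ((c : ℤ) : ZMod 7) • pfE G f := by
    intro f
    rw [show idL c f f = [(c, 1, 0, 0, 1)] from if_pos rfl]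
    simp only [opL, List.map_cons, List.map_nil, List.sum_cons, List.sum_nil, add_zero,
      LinearMap.smul_apply, op_one]
  have h2 : ∀ f g, f ≠ g → (opL (idL c f g) : Module.End (ZMod 7) (Fn7 (7 ^ r) (7 ^ s))) (pfE G g) = 0 := by
    intro f g hfg
    rw [show idL c f g = [] from if_neg hfg]
    rfl
  fin_cases i
  · show _ = ∑ f : Fin 2, opL (idL c 0 f) (pfE G f)
    rw [Fin.sum_univ_two, h1 0, h2 0 1 (by decide), add_zero]
    rfl
  · show _ = ∑ f : Fin 2, opL (idL c 1 f) (pfE G f)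
    rw [Fin.sum_univ_two, h1 1, h2 1 0 (by decide), zero_add]
    rfl

private lemma rw_congr {Φ Ψ : (ℤ → ℤ → ZMod 7) → (ℤ → ℤ → ZMod 7)}
    {A : Fin 2 → Fin 2 → List Tm} (hA : Rw r s Φ A) (h : ∀ G, Φ G = Ψ G) : Rw r s Ψ A := by
  have : Φ = Ψ := funext h
  rwa [this] at hA

private lemma pf_zero (H : ℤ → ℤ → ZMod 7) : (pfE H 0 : Fn7 (7 ^ r) (7 ^ s)) 0 0 = H 1 0 - H 0 1 := by
  have hY : rY7 0 (0 : ZMod (7 ^ r)) (0 : ZMod (7 ^ s)) = 0 := by
    unfold rY7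
    simp
  unfold pfE edgeE7 edge7
  rw [hY]
  simp [e7, Pool.Agent.Helper4.TL.eps_one]

end

theorem hStp (hb : THkB) (h3 : THk 3 T3L) (h5 : THk 5 T5L) (h11 : THk 11 T11L) (h13 : THk 13 T13L)
    (h17 : THk 17 T17L) (h19 : THk 19 T19L) (h29 : THk 29 T29L) (h37 : THk 37 T37L) (h43 : THk 43 T43L)
    (ho : S7Opm) (hc : TCeG) (ha : S7PlA) : TStp := by
  intro r s G hG
  have _ := ha
  have hl : ∀ (l : ℕ) (T : Fin 2 → Fin 2 → List Tm), l.Prime → l ≠ 7 → l ≠ 2 → THk l T → GG T →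
      Rw r s (Tl l (2 * 7 ^ r)) T := fun l T hp h7 h2 hT hg => ⟨hg, fun G hG =>
    ⟨(hb (ZMod 7) _ r (s + 1) l G hp h7 h2 hG).1, hT r s G hG⟩⟩
  have r3 := hl 3 T3L (by norm_num) (by norm_num) (by norm_num) h3 (fun i f => (hc.1 i f).1)
  have r5 := hl 5 T5L (by norm_num) (by norm_num) (by norm_num) h5 (fun i f => (hc.1 i f).2.1)
  have r11 := hl 11 T11L (by norm_num) (by norm_num) (by norm_num) h11 (fun i f => (hc.1 i f).2.2.1)
  have r13 := hl 13 T13L (by norm_num) (by norm_num) (by norm_num) h13 (fun i f => (hc.1 i f).2.2.2.1)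
  have r17 := hl 17 T17L (by norm_num) (by norm_num) (by norm_num) h17 (fun i f => (hc.1 i f).2.2.2.2.1)
  have r19 := hl 19 T19L (by norm_num) (by norm_num) (by norm_num) h19
    (fun i f => (hc.1 i f).2.2.2.2.2.1)
  have r29 := hl 29 T29L (by norm_num) (by norm_num) (by norm_num) h29
    (fun i f => (hc.1 i f).2.2.2.2.2.2.1)
  have r37 := hl 37 T37L (by norm_num) (by norm_num) (by norm_num) h37
    (fun i f => (hc.1 i f).2.2.2.2.2.2.2.1)
  have r43 := hl 43 T43L (by norm_num) (by norm_num) (by norm_num) h43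
    (fun i f => (hc.1 i f).2.2.2.2.2.2.2.2.1)
  have rU : Rw r s (UoE (2 * 7 ^ r)) ULE := by
    have h := rw_ad ho (rw_ad ho r11 (rw_sm ho (-1) (rw_mm ho r3 r3))) (rw_id (r := r) (s := s) (-3))
    refine rw_congr (A := ULE) h fun G => ?_
    unfold UoE
    rw [neg_smul, neg_smul, one_smul]
    abel
  have rT : Rw r s (fun G => Tl 13 (2 * 7 ^ r) G + (5 : ℤ) • Tl 5 (2 * 7 ^ r) G) TcL :=
    rw_ad ho r13 (rw_sm ho 5 r5)
  have rV : Rw r s (VoE (2 * 7 ^ r)) VLE := by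
    have h := rw_ad ho (rw_ad ho (rw_ad ho (rw_ad ho (rw_ad ho (rw_id (r := r) (s := s) 5) r11)
      (rw_sm ho 5 r29)) (rw_sm ho 4 r37)) (rw_sm ho 5 r43)) (rw_mm ho r3 rT)
    exact rw_congr (A := VLE) h fun G => rfl
  refine ⟨rU.2 G hG, rV.2 G hG, fun c => ?_, fun H => pf_zero H⟩
  have r0 := (rw_id (r := r) (s := s) 1).2 G hG
  have q1 := (rw_ad ho r3 (rw_id (r := r) (s := s) 1)).2 G hG
  have q2 := (rw_ad ho r5 (rw_sm ho 4 r3)).2 G hG
  have q3 := (rw_ad ho (rw_ad ho (rw_ad ho (rw_ad ho (rw_ad ho (rw_id (r := r) (s := s) 3)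
    (rw_sm ho 2 r11)) r13) r17) (rw_sm ho 5 r19)) (rw_mm ho r3 r5)).2 G hG
  fin_cases c
  · have h := r0.2 0
    simp only [one_smul] at h
    exact h
  · have h := q1.2 0
    simp only [one_smul] at h
    exact h
  · exact q2.2 0
  · exact q3.2 0

end Pool.Agent.Helper38.TL7
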